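import Pool.Agent.MP_0b4698_lc.Main

namespace Pool.Agent.Results.MP_0b4698_lc.AlephTwo

open Cardinal Set Filter Pool.Agent.MP_0b4698_lc

theorem exists_index {α : Type} [Nonempty α] {I : Type} (h : #α ≤ #I) :
    ∃ f : I → α, Function.Surjective f := by
  obtain ⟨ι⟩ : Nonempty (α ↪ I) := h
  exact ⟨Function.invFun ι, Function.invFun_surjective ι.injective⟩

theorem dom_nonempty : {κ : Cardinal.{0} | ∃ D : Set (ℕ → ℕ),
    (∀ f : ℕ → ℕ, ∃ g ∈ D, ∀ᶠ n in atTop, f n ≤ g n) ∧ #D = κ}.Nonempty :=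
  ⟨_, Set.univ, fun f => ⟨f, mem_univ _, Eventually.of_forall fun _ => le_rfl⟩, rfl⟩

theorem ultra_nonempty : {κ : Cardinal.{0} | ∃ (U : Ultrafilter ℕ) (B : Set (Set ℕ)),
    (∀ s ∈ U, s.Infinite) ∧ (∀ b ∈ B, b ∈ U) ∧ (∀ s ∈ U, ∃ b ∈ B, b ⊆ s) ∧ #B = κ}.Nonempty := by
  refine ⟨_, hyperfilter ℕ, {s | s ∈ hyperfilter ℕ}, fun s hs hfin => ?_, fun b hb => hb,
    fun s hs => ⟨s, hs, Subset.rfl⟩, rfl⟩
  exact hfin.notMem_hyperfilter hs

/-- The dominating number is uncountable. -/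
theorem aleph_one_le_dom : ℵ_ 1 ≤ domNumber := by
  apply le_csInf dom_nonempty
  rintro _ ⟨D, hD, rfl⟩
  by_contra hcon
  push Not at hcon
  have hc : D.Countable := by
    have : #D ≤ ℵ₀ := by
      rw [← Order.lt_succ_iff, succ_aleph0]; exact hcon
    exact mk_le_aleph0_iff.1 this |>.to_set
  have hne : D.Nonempty := by
    obtain ⟨g, hg, -⟩ := hD (fun _ => 0)
    exact ⟨g, hg⟩
  obtain ⟨d, rfl⟩ := hc.exists_eq_range hne
  obtain ⟨_, ⟨k, rfl⟩, hk⟩ := hD (fun n => (∑ j ∈ Finset.range (n + 1), d j n) + 1)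
  obtain ⟨N, hN⟩ := eventually_atTop.1 hk
  have h1 := hN (max N k) (le_max_left _ _)
  have h2 : d k (max N k) ≤ ∑ j ∈ Finset.range (max N k + 1), d j (max N k) :=
    Finset.single_le_sum (f := fun j => d j (max N k)) (fun _ _ => Nat.zero_le _)
      (Finset.mem_range.2 (by omega))
  omega

theorem smm_le_of_le (h1 : domNumber ≤ ℵ_ 1) (h2 : ultrafilterNumber ≤ ℵ_ 1) : smm ≤ ℵ_ 1 := by
  classical
  obtain ⟨D, hD, hDc⟩ := csInf_mem dom_nonempty
  obtain ⟨U, B, hU, hB1, hB2, hBc⟩ := csInf_mem ultra_nonempty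
  change #D = domNumber at hDc
  change #B = ultrafilterNumber at hBc
  let I := (ℵ_ 1 : Cardinal.{0}).ord.ToType
  have hI : #I = ℵ_ 1 := mk_ord_toType _
  have hIinf : Infinite I := by
    rw [infinite_iff, hI]; exact aleph0_le_aleph 1
  have hIc : ∀ i : I, (Iic i).Countable := by
    intro i
    have h : #(Iio i) < #I := mk_Iio_lt i (by rw [hI]; simp [I])
    have h0 : #(Iio i) ≤ ℵ₀ := Order.lt_succ_iff.1 (h.trans_eq (hI.trans succ_aleph0.symm))
    have h' : (Iio i).Countable := (mk_le_aleph0_iff.1 h0).to_set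
    rw [← Iio_insert]
    exact h'.insert i
  have hIu : ¬ (Set.univ : Set I).Countable := by
    intro h
    have h3 : #(Set.univ : Set I) ≤ ℵ₀ := mk_le_aleph0_iff.2 h.to_subtype
    rw [mk_univ, hI] at h3
    exact absurd h3 (not_le.2 (by rw [← succ_aleph0]; exact Order.lt_succ _))
  -- indexing of the base
  obtain ⟨b0, hb0, -⟩ := hB2 Set.univ univ_mem
  have : Nonempty B := ⟨⟨b0, hb0⟩⟩
  obtain ⟨Bf, hBf⟩ := exists_index (α := B) (I := I) (by rw [hBc, hI]; exact h2)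
  -- indexing of the dominating family
  obtain ⟨g0, hg0, -⟩ := hD (fun _ => 0)
  have : Nonempty (D × ℕ) := ⟨(⟨g0, hg0⟩, 0)⟩
  obtain ⟨Df, hDf⟩ := exists_index (α := D × ℕ) (I := I) (by
    rw [mk_prod, lift_id, lift_id, hDc, hI, mk_nat]
    calc domNumber * ℵ₀ ≤ ℵ_ 1 * ℵ_ 1 := mul_le_mul' h1 (aleph0_le_aleph 1)
      _ = ℵ_ 1 := mul_eq_self (aleph0_le_aleph 1))
  obtain ⟨Y, hY1, hY2, hY3⟩ := small U hU hIc hIu (fun i => (Bf i : Set ℕ))
    (fun i => hB1 _ (Bf i).2)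
    (fun s hs => by
      obtain ⟨b, hb, hbs⟩ := hB2 s hs
      obtain ⟨i, hi⟩ := hBf ⟨b, hb⟩
      exact ⟨i, by rw [hi]; exact hbs⟩)
    (fun i n => ((Df i).1 : ℕ → ℕ) n + (Df i).2)
    (fun f => by
      obtain ⟨g, hg, hfg⟩ := hD f
      obtain ⟨N, hN⟩ := eventually_atTop.1 hfg
      obtain ⟨i, hi⟩ := hDf (⟨g, hg⟩, ∑ n ∈ Finset.range N, f n)
      refine ⟨i, fun n => ?_⟩
      rw [hi]
      rcases le_or_gt N n with h | h
      · exact (hN n h).trans (Nat.le_add_right _ _)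
      · have : f n ≤ ∑ n ∈ Finset.range N, f n :=
          Finset.single_le_sum (f := f) (fun _ _ => Nat.zero_le _) (Finset.mem_range.2 h)
        exact this.trans (Nat.le_add_left _ _))
  calc smm ≤ #Y := csInf_le' ⟨Y, hY1, hY2, rfl⟩
    _ ≤ #I := hY3
    _ = ℵ_ 1 := hI

/-- If `max {𝔡, 𝔲} < 𝔰_mm` then `max {𝔡, 𝔲} ≥ ℵ₂` and the continuum is at least `ℵ₃`. -/
theorem result (h : max domNumber ultrafilterNumber < smm) :
    ℵ_ 2 ≤ max domNumber ultrafilterNumber ∧ ℵ_ 3 ≤ (𝔠 : Cardinal.{0}) := by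
  have key : ℵ_ 2 ≤ max domNumber ultrafilterNumber := by
    by_contra hcon
    push Not at hcon
    have h2 : max domNumber ultrafilterNumber ≤ ℵ_ 1 := by
      rw [← Order.lt_succ_iff, succ_aleph, show (1 : Ordinal.{0}) + 1 = 2 by norm_num]
      exact hcon
    have h3 := smm_le_of_le ((le_max_left _ _).trans h2) ((le_max_right _ _).trans h2)
    exact absurd (h3.trans (aleph_one_le_dom.trans (le_max_left _ _))) (not_le.2 h)
  refine ⟨key, ?_⟩
  have h4 : smm ≤ 𝔠 := by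
    by_cases hne : {κ : Cardinal.{0} | ∃ Y : Set (Set ℕ), Maximal IdealIndep Y ∧ Y.Infinite ∧
        #Y = κ}.Nonempty
    · obtain ⟨Y, hY1, hY2, hY3⟩ := csInf_mem hne
      calc smm = #Y := hY3.symm
        _ ≤ #(Set ℕ) := mk_set_le Y
        _ = 𝔠 := by simp
    · have : smm = 0 := by
        rw [smm, not_nonempty_iff_eq_empty.1 hne]; simp
      rw [this]; exact bot_le
  have h5 : ℵ_ 2 < 𝔠 := (key.trans_lt h).trans_le h4
  have h6 := Order.succ_le_of_lt h5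
  rw [succ_aleph, show (2 : Ordinal.{0}) + 1 = 3 by norm_num] at h6
  exact h6

end Pool.Agent.Results.MP_0b4698_lc.AlephTwo
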